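import Pool.Agent.Lib_helper80.AVM.LA
import Pool.Agent.Lib_helper31.AVM.LB
import Pool.Agent.Lib_helper66.AVM.QS
import Pool.Agent.Lib_helper51.AVM.KM

/-!
# Project AVM, block LM: the Rédei matrix is equidistributed
-/

set_option autoImplicit false

namespace Pool.Agent.AVM

open Finset Filter Topology Pool.Agent.PQ Pool.Agent.GL

namespace LMp

/-- the sign of an element of `𝔽₂` -/
def LM_sg (a : ZMod 2) : ℤ := if a = 0 then 1 else -1

theorem LM_sg_sq (a : ZMod 2) : LM_sg a * LM_sg a = 1 := by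
  unfold LM_sg; split_ifs <;> norm_num

theorem LM_sg_pm (a : ZMod 2) : LM_sg a = 1 ∨ LM_sg a = -1 := by
  unfold LM_sg; split_ifs <;> simp

theorem LM_sg_inj {a b : ZMod 2} (h : LM_sg a = LM_sg b) : a = b := by
  revert a b; decide

theorem LM_sg_bit {a : ℤ} {p : ℕ} (h : jacobiSym a p = 1 ∨ jacobiSym a p = -1) :
    LM_sg (bit a p) = jacobiSym a p := by
  unfold LM_sg bit
  rcases h with h | h <;> rw [h] <;> norm_num

theorem LM_bit_eq {a : ℤ} {p : ℕ} (h : jacobiSym a p = 1 ∨ jacobiSym a p = -1) (b : ZMod 2) :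
    bit a p = b ↔ jacobiSym a p = LM_sg b := by
  constructor
  · intro hb; rw [← hb, LM_sg_bit h]
  · intro hb; apply LM_sg_inj; rw [LM_sg_bit h, hb]

/-- the index set -/
def LM_T (k : ℕ) : Finset (Fin k × Fin k) := univ.filter (fun t => t.1 ≤ t.2)

/-- the variable -/
def LM_z (k : ℕ) (u : Fin (k + 1) → ℕ) (t : Fin k × Fin k) : ℤ :=
  if t.1 < t.2 then jacobiSym (u t.1.castSucc : ℤ) (u t.2.castSucc)
  else jacobiSym (qq k u : ℤ) (u t.1.castSucc)

/-- the constant -/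
def LM_c {k : ℕ} (M : Matrix (Fin k) (Fin k) (ZMod 2)) (t : Fin k × Fin k) : ℤ :=
  if t.1 < t.2 then LM_sg (M t.2 t.1)
  else LM_sg (M t.1 t.1) * ∏ j ∈ univ.erase t.1, LM_sg (M t.1 j)

theorem LM_card (k : ℕ) : (LM_T k).card = k * (k + 1) / 2 := by
  have h1 : (LM_T k).card = ∑ j : Fin k, ((j : ℕ) + 1) := by
    unfold LM_T
    rw [Finset.card_filter, Fintype.sum_prod_type_right]
    refine Finset.sum_congr rfl fun j _ => ?_
    rw [← Finset.card_filter]
    have : (univ.filter (fun i : Fin k => i ≤ j)) = Finset.Iic j := by ext i; simp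
    rw [this, Fin.card_Iic]
  have h2 : ∑ i ∈ range k, (i + 1) = ∑ i ∈ range (k + 1), i := by
    rw [Finset.sum_range_succ']; simp
  rw [h1, Fin.sum_univ_eq_sum_range (fun i => i + 1) k, h2, Finset.sum_range_id,
    Nat.add_sub_cancel, Nat.mul_comm]

theorem LM_jac_prod {ι : Type} (s : Finset ι) (f : ι → ℕ) (b : ℕ) :
    jacobiSym ((∏ i ∈ s, f i : ℕ) : ℤ) b = ∏ i ∈ s, jacobiSym (f i : ℤ) b := by
  classical
  induction s using Finset.induction_on with
  | empty => simp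
  | insert a s ha ih =>
    rw [Finset.prod_insert ha, Finset.prod_insert ha, Nat.cast_mul, jacobiSym.mul_left, ih]

theorem LM_cop {p q : ℕ} (hp : p.Prime) (hq : q.Prime) (h : p ≠ q) :
    jacobiSym (p : ℤ) q = 1 ∨ jacobiSym (p : ℤ) q = -1 := by
  apply jacobiSym.eq_one_or_neg_one
  rw [Int.gcd_natCast_natCast]
  exact (Nat.coprime_primes hp hq).mpr h

theorem LM_c_pm {k : ℕ} (M : Matrix (Fin k) (Fin k) (ZMod 2)) (t : Fin k × Fin k) :
    LM_c M t = 1 ∨ LM_c M t = -1 := by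
  unfold LM_c
  split_ifs
  · exact LM_sg_pm _
  · have h1 : ∀ s : Finset (Fin k), (∏ j ∈ s, LM_sg (M t.1 j)) = 1 ∨ (∏ j ∈ s, LM_sg (M t.1 j)) = -1 := by
      intro s
      induction s using Finset.induction_on with
      | empty => simp
      | insert a s ha ih =>
        rw [Finset.prod_insert ha]
        rcases LM_sg_pm (M t.1 a) with h | h <;> rcases ih with h' | h' <;> rw [h, h'] <;> norm_num
    rcases LM_sg_pm (M t.1 t.1) with h | h <;> rcases h1 (univ.erase t.1) with h' | h' <;>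
      rw [h, h'] <;> norm_num

/-- the facts on a good tuple -/
structure LM_G (k : ℕ) (u : Fin (k + 1) → ℕ) : Prop where
  pr : ∀ i, (u i).Prime
  inj : Function.Injective u
  one : ∀ i : Fin k, u i.castSucc % 4 = 1
  three : qq k u % 4 = 3

theorem LM_of_GT {k X : ℕ} {u : Fin (k + 1) → ℕ} (hu : u ∈ GT k X) : LM_G k u := by
  unfold GT Tup Good at hu
  simp only [Finset.mem_filter, Fintype.mem_piFinset, prm] at hu
  obtain ⟨⟨h1, -⟩, h2, h3, h4, -⟩ := hu
  exact ⟨fun i => (h1 i).2, h2, h3, h4⟩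

theorem LM_z_pm {k : ℕ} {u : Fin (k + 1) → ℕ} (hu : LM_G k u) (t : Fin k × Fin k) :
    LM_z k u t = 1 ∨ LM_z k u t = -1 := by
  unfold LM_z
  split_ifs with h
  · refine LM_cop (hu.pr _) (hu.pr _) fun hh => ?_
    exact absurd (Fin.castSucc_injective _ (hu.inj hh)) (ne_of_lt h)
  · refine LM_cop (hu.pr _) (hu.pr _) fun hh => ?_
    exact absurd (hu.inj hh) (Fin.castSucc_lt_last _).ne'

theorem LM_jac {k : ℕ} {u : Fin (k + 1) → ℕ} (hu : LM_G k u) {i j : Fin k} (h : i ≠ j) :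
    jacobiSym (u i.castSucc : ℤ) (u j.castSucc) = 1 ∨
      jacobiSym (u i.castSucc : ℤ) (u j.castSucc) = -1 := by
  refine LM_cop (hu.pr _) (hu.pr _) fun hh => ?_
  exact h (Fin.castSucc_injective _ (hu.inj hh))

theorem LM_rec {k : ℕ} {u : Fin (k + 1) → ℕ} (hu : LM_G k u) (i j : Fin k) :
    jacobiSym (u i.castSucc : ℤ) (u j.castSucc) = jacobiSym (u j.castSucc : ℤ) (u i.castSucc) := by
  apply jacobiSym.quadratic_reciprocity_one_mod_four (hu.one i)
  rw [Nat.odd_iff]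
  have := hu.one j
  omega

theorem LM_diag {k : ℕ} {u : Fin (k + 1) → ℕ} (l : Fin k) :
    jacobiSym (((∏ j ∈ univ.erase l, u j.castSucc) * qq k u : ℕ) : ℤ) (u l.castSucc) =
      (∏ j ∈ univ.erase l, jacobiSym (u j.castSucc : ℤ) (u l.castSucc)) *
        jacobiSym (qq k u : ℤ) (u l.castSucc) := by
  rw [Nat.cast_mul, jacobiSym.mul_left, LM_jac_prod]

theorem LM_diag_pm {k : ℕ} {u : Fin (k + 1) → ℕ} (hu : LM_G k u) (l : Fin k) :
    jacobiSym (((∏ j ∈ univ.erase l, u j.castSucc) * qq k u : ℕ) : ℤ) (u l.castSucc) = 1 ∨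
    jacobiSym (((∏ j ∈ univ.erase l, u j.castSucc) * qq k u : ℕ) : ℤ) (u l.castSucc) = -1 := by
  apply jacobiSym.eq_one_or_neg_one
  rw [Int.gcd_natCast_natCast]
  refine Nat.Coprime.mul_left (Nat.Coprime.prod_left fun j hj => ?_) ?_
  · refine (Nat.coprime_primes (hu.pr _) (hu.pr _)).mpr fun hh => ?_
    exact (Finset.ne_of_mem_erase hj) (Fin.castSucc_injective _ (hu.inj hh))
  · refine (Nat.coprime_primes (hu.pr _) (hu.pr _)).mpr fun hh => ?_
    exact absurd (hu.inj hh) (Fin.castSucc_lt_last _).ne'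

theorem LM_prod_sq {k : ℕ} (M : Matrix (Fin k) (Fin k) (ZMod 2)) (l : Fin k) (s : Finset (Fin k)) :
    (∏ j ∈ s, LM_sg (M l j)) * (∏ j ∈ s, LM_sg (M l j)) = 1 := by
  rw [← Finset.prod_mul_distrib]
  exact Finset.prod_eq_one fun j _ => LM_sg_sq _

theorem LM_iff {k : ℕ} (M : Matrix (Fin k) (Fin k) (ZMod 2)) (hM : M.transpose = M)
    {u : Fin (k + 1) → ℕ} (hu : LM_G k u) :
    RM k u = M ↔ ∀ t ∈ LM_T k, LM_c M t * LM_z k u t = 1 := by
  have key : ∀ t, LM_c M t * LM_z k u t = 1 ↔ LM_z k u t = LM_c M t := by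
    intro t
    rcases LM_c_pm M t with h | h <;> rcases LM_z_pm hu t with h' | h' <;> rw [h, h'] <;> norm_num
  have hsym : ∀ i j, M i j = M j i := fun i j => by
    conv_lhs => rw [← hM]
    rfl
  constructor
  · intro h t ht
    rw [key]
    have off : ∀ l i : Fin k, l ≠ i →
        jacobiSym (u i.castSucc : ℤ) (u l.castSucc) = LM_sg (M l i) := by
      intro l i hli
      rw [← LM_bit_eq (LM_jac hu hli.symm), ← h]
      simp [RM, hli]
    unfold LM_z LM_c
    split_ifs with hlt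
    · exact off _ _ (ne_of_gt hlt)
    · have h1 : RM k u t.1 t.1 = M t.1 t.1 := by rw [h]
      rw [RM, if_pos rfl, LM_bit_eq (LM_diag_pm hu t.1), LM_diag] at h1
      rw [Finset.prod_congr rfl fun j hj => off t.1 j (Finset.ne_of_mem_erase hj).symm] at h1
      have h2 := LM_prod_sq M t.1 (univ.erase t.1)
      calc jacobiSym (qq k u : ℤ) (u t.1.castSucc)
          = ((∏ j ∈ univ.erase t.1, LM_sg (M t.1 j)) * (∏ j ∈ univ.erase t.1, LM_sg (M t.1 j))) *
            jacobiSym (qq k u : ℤ) (u t.1.castSucc) := by rw [h2, one_mul]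
        _ = ((∏ j ∈ univ.erase t.1, LM_sg (M t.1 j)) * jacobiSym (qq k u : ℤ) (u t.1.castSucc)) *
            (∏ j ∈ univ.erase t.1, LM_sg (M t.1 j)) := by ring
        _ = _ := by rw [h1]
  · intro h
    have h' : ∀ t ∈ LM_T k, LM_z k u t = LM_c M t := fun t ht => (key t).mp (h t ht)
    have off : ∀ l i : Fin k, l ≠ i →
        jacobiSym (u i.castSucc : ℤ) (u l.castSucc) = LM_sg (M l i) := by
      intro l i hli
      rcases lt_or_gt_of_ne hli with hlt | hlt
      · have := h' (l, i) (by simp [LM_T, hlt.le])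
        simp only [LM_z, LM_c, hlt, if_true] at this
        rw [LM_rec hu, this, hsym]
      · have := h' (i, l) (by simp [LM_T, hlt.le])
        simpa only [LM_z, LM_c, hlt, if_true] using this
    ext l i
    by_cases hli : l = i
    · subst hli
      rw [RM, if_pos rfl, LM_bit_eq (LM_diag_pm hu l), LM_diag]
      rw [Finset.prod_congr rfl fun j hj => off l j (Finset.ne_of_mem_erase hj).symm]
      have := h' (l, l) (by simp [LM_T])
      simp only [LM_z, LM_c, lt_irrefl, if_false] at this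
      rw [this]
      have h2 := LM_prod_sq M l (univ.erase l)
      calc (∏ j ∈ univ.erase l, LM_sg (M l j)) * (LM_sg (M l l) * ∏ j ∈ univ.erase l, LM_sg (M l j))
          = LM_sg (M l l) * ((∏ j ∈ univ.erase l, LM_sg (M l j)) *
              ∏ j ∈ univ.erase l, LM_sg (M l j)) := by ring
        _ = _ := by rw [h2, mul_one]
    · rw [RM, if_neg hli, LM_bit_eq (LM_jac hu (Ne.symm hli))]
      exact off l i hli

open Classical in
theorem LM_ind {k : ℕ} (M : Matrix (Fin k) (Fin k) (ZMod 2)) (hM : M.transpose = M)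
    {u : Fin (k + 1) → ℕ} (hu : LM_G k u) :
    (if RM k u = M then (1 : ℂ) else 0) =
      (1 / 2 ^ (k * (k + 1) / 2)) *
        ∏ t ∈ LM_T k, (1 + ((LM_c M t : ℂ) * (LM_z k u t : ℂ))) := by
  by_cases h : RM k u = M
  · rw [if_pos h]
    have h1 := (LM_iff M hM hu).mp h
    have h2 : ∏ t ∈ LM_T k, (1 + ((LM_c M t : ℂ) * (LM_z k u t : ℂ))) =
        ∏ t ∈ LM_T k, (2 : ℂ) := by
      refine Finset.prod_congr rfl fun t ht => ?_
      rw [← Int.cast_mul, h1 t ht]
      norm_num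
    rw [h2, Finset.prod_const, LM_card]
    rw [one_div, inv_mul_cancel₀]
    exact pow_ne_zero _ two_ne_zero
  · rw [if_neg h]
    rw [LM_iff M hM hu] at h
    push Not at h
    obtain ⟨t, ht, h3⟩ := h
    have h4 : LM_c M t * LM_z k u t = -1 := by
      revert h3
      rcases LM_c_pm M t with h | h <;> rcases LM_z_pm hu t with h' | h' <;> rw [h, h'] <;> norm_num
    rw [Finset.prod_eq_zero ht, mul_zero]
    rw [← Int.cast_mul, h4]
    norm_num

theorem LM_norm_jac (a : ℤ) (b : ℕ) : ‖((jacobiSym a b : ℤ) : ℂ)‖ ≤ 1 := by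
  rcases jacobiSym.trichotomy a b with h | h | h <;> rw [h] <;> simp

theorem LM_LL_nonneg (k : ℕ) {X : ℕ} (hX : 3 ≤ X) : 0 ≤ LL k X := by
  unfold LL
  have h3 : (3 : ℝ) ≤ X := by exact_mod_cast hX
  have h1 : 1 ≤ Real.log X := by
    rw [Real.le_log_iff_exp_le (by linarith)]
    have := Real.exp_one_lt_d9
    linarith
  have h2 : 0 ≤ Real.log (Real.log X) := Real.log_nonneg h1
  positivity

/-- the sums over the nonempty sets -/
theorem LM_sum (k : ℕ) (A : Finset (Fin k × Fin k)) (hA : A ⊆ LM_T k) (hne : A ≠ ∅) (ε : ℝ)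
    (hε : 0 < ε) : ∃ X₀ : ℕ, ∀ X : ℕ, X₀ ≤ X →
      ‖∑ u ∈ GT k X, ∏ t ∈ A, (LM_z k u t : ℂ)‖ ≤ ε * LL k X := by
  classical
  by_cases hd : ∃ i : Fin k, (i, i) ∈ A
  · -- there is a symbol with `q`
    obtain ⟨X₀, hX⟩ := la k (fun i => if (i, i) ∈ A then 2 else 0)
      (by obtain ⟨i, hi⟩ := hd; exact ⟨i, by simp [hi]⟩) ε hε
    refine ⟨X₀, fun X hXX => ?_⟩
    have h1 := hX X hXX (fun v => ∏ t ∈ A.filter (fun t => t.1 < t.2),
      ((jacobiSym (v t.1 : ℤ) (v t.2) : ℤ) : ℂ)) (fun v => by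
        rw [norm_prod]
        exact Finset.prod_le_one (fun _ _ => norm_nonneg _) fun _ _ => LM_norm_jac _ _)
    refine le_trans (le_of_eq ?_) h1
    congr 1
    refine Finset.sum_congr rfl fun u hu => ?_
    have hG := LM_of_GT hu
    rw [← Finset.prod_filter_mul_prod_filter_not A (fun t => t.1 < t.2)]
    congr 1
    · refine Finset.prod_congr rfl fun t ht => ?_
      rw [LM_z, if_pos (Finset.mem_filter.mp ht).2]
      rfl
    · have h2 : ∏ i : Fin k, (qc (u i.castSucc) ^ (if (i, i) ∈ A then 2 else 0))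
          (qq k u : ZMod (u i.castSucc)) =
          ∏ i ∈ univ.filter (fun i : Fin k => (i, i) ∈ A),
            ((jacobiSym (qq k u : ℤ) (u i.castSucc) : ℤ) : ℂ) := by
        rw [Finset.prod_filter]
        refine Finset.prod_congr rfl fun i _ => ?_
        split_ifs with hi
        · rw [qc_two _ (hG.pr _) (hG.one i)]
        · rw [pow_zero]
          apply MulChar.one_apply
          have : Nat.Coprime (qq k u) (u i.castSucc) :=
            (Nat.coprime_primes (hG.pr _) (hG.pr _)).mpr fun hh =>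
              absurd (hG.inj hh) (Fin.castSucc_lt_last _).ne'
          exact (ZMod.isUnit_iff_coprime _ _).mpr this
      rw [h2]
      refine (Finset.prod_bij (fun (i : Fin k) _ => (i, i)) ?_ ?_ ?_ ?_).symm
      · intro i hi
        simp only [Finset.mem_filter, Finset.mem_univ, true_and] at hi
        simp [hi]
      · intro i _ j _ hij
        exact (Prod.mk.inj hij).1
      · intro t ht
        rw [Finset.mem_filter] at ht
        have ht2 := hA ht.1
        simp only [LM_T, Finset.mem_filter, Finset.mem_univ, true_and] at ht2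
        have ht3 : t.1 = t.2 := le_antisymm ht2 (not_lt.mp ht.2)
        refine ⟨t.1, ?_, ?_⟩
        · simp only [Finset.mem_filter, Finset.mem_univ, true_and]
          have : (t.1, t.1) = t := Prod.ext rfl ht3
          rw [this]; exact ht.1
        · exact Prod.ext rfl ht3
      · intro i _
        simp [LM_z]
  · -- only symbols between the `p_i`
    have hlt : ∀ t ∈ A, t.1 < t.2 := by
      intro t ht
      have ht2 := hA ht
      simp only [LM_T, Finset.mem_filter, Finset.mem_univ, true_and] at ht2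
      refine lt_of_le_of_ne ht2 fun hh => hd ⟨t.1, ?_⟩
      have : (t.1, t.1) = t := Prod.ext rfl hh
      rw [this]; exact ht
    obtain ⟨X₀, hX⟩ := lb k (fun i j => if (i, j) ∈ A then 1 else 0)
      (by
        obtain ⟨t, ht⟩ := Finset.nonempty_iff_ne_empty.mpr hne
        exact ⟨t.1, t.2, hlt t ht, by simp [ht]⟩) ε hε
    refine ⟨X₀, fun X hXX => le_trans (le_of_eq ?_) (hX X hXX)⟩
    congr 1
    refine Finset.sum_congr rfl fun u _ => ?_
    rw [← Fintype.prod_prod_type' (fun i j : Fin k => if i < j then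
      ((jacobiSym (u i.castSucc : ℤ) (u j.castSucc) : ℤ) : ℂ) ^ (if (i, j) ∈ A then 1 else 0) else 1)]
    rw [← Finset.prod_subset (Finset.subset_univ A)]
    · refine Finset.prod_congr rfl fun t ht => ?_
      rw [LM_z, if_pos (hlt t ht), if_pos (hlt t ht), if_pos ht, pow_one]
    · intro t _ ht
      split_ifs <;> simp

end LMp

open LMp in
open Classical in
theorem lm (k : ℕ) (M₀ : Matrix (Fin k) (Fin k) (ZMod 2)) (hM : M₀.transpose = M₀) (ε : ℝ) (hε : 0 < ε) :
    ∃ X₀ : ℕ, ∀ X : ℕ, X₀ ≤ X →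
    |(((GT k X).filter (fun u => RM k u = M₀)).card : ℝ) - ((GT k X).card : ℝ) / 2 ^ (k * (k + 1) / 2)| ≤
      ε * LL k X := by
  have h0 : ∀ᶠ X : ℕ in atTop, ∀ A ∈ (LM_T k).powerset.erase ∅,
      ‖∑ u ∈ GT k X, ∏ t ∈ A, (LM_z k u t : ℂ)‖ ≤ ε * LL k X := by
    rw [Finset.eventually_all]
    intro A hA
    obtain ⟨X₀, hX⟩ := LM_sum k A (Finset.mem_powerset.mp (Finset.mem_of_mem_erase hA))
      (Finset.ne_of_mem_erase hA) ε hε
    exact Filter.eventually_atTop.mpr ⟨X₀, hX⟩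
  obtain ⟨X₀, hX₀⟩ := Filter.eventually_atTop.mp (h0.and (Filter.eventually_ge_atTop 3))
  refine ⟨X₀, fun X hX => ?_⟩
  obtain ⟨h1, hX3⟩ := hX₀ X hX
  set N := k * (k + 1) / 2 with hN
  have h2 : ((((GT k X).filter (fun u => RM k u = M₀)).card : ℝ) : ℂ) =
      (1 / 2 ^ N) * ∑ A ∈ (LM_T k).powerset, ∑ u ∈ GT k X,
        ∏ t ∈ A, ((LM_c M₀ t : ℂ) * (LM_z k u t : ℂ)) := by
    rw [Finset.card_filter, Nat.cast_sum, Complex.ofReal_sum, Finset.sum_comm, Finset.mul_sum]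
    refine Finset.sum_congr rfl fun u hu => ?_
    have e : ((((if RM k u = M₀ then 1 else 0 : ℕ) : ℝ)) : ℂ) =
        if RM k u = M₀ then (1 : ℂ) else 0 := by
      split_ifs <;> simp
    refine Eq.trans e ?_
    refine Eq.trans (LM_ind M₀ hM (LM_of_GT hu)) ?_
    rw [Finset.prod_one_add]
  have h3 : ((((GT k X).card : ℝ) / 2 ^ N : ℝ) : ℂ) =
      (1 / 2 ^ N) * ∑ u ∈ GT k X, ∏ t ∈ (∅ : Finset (Fin k × Fin k)),
        ((LM_c M₀ t : ℂ) * (LM_z k u t : ℂ)) := by
    simp only [Finset.prod_empty, Finset.sum_const, nsmul_eq_mul, mul_one]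
    push_cast
    ring
  have h4 : |(((GT k X).filter (fun u => RM k u = M₀)).card : ℝ) - ((GT k X).card : ℝ) / 2 ^ N| =
      ‖(1 / 2 ^ N : ℂ) * ∑ A ∈ (LM_T k).powerset.erase ∅, ∑ u ∈ GT k X,
        ∏ t ∈ A, ((LM_c M₀ t : ℂ) * (LM_z k u t : ℂ))‖ := by
    rw [← Real.norm_eq_abs, ← Complex.norm_real, Complex.ofReal_sub, h2, h3,
      ← Finset.add_sum_erase _ _ (Finset.empty_mem_powerset (LM_T k))]
    congr 1
    ring
  rw [h4, norm_mul]
  have h5 : ‖∑ A ∈ (LM_T k).powerset.erase ∅, ∑ u ∈ GT k X,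
      ∏ t ∈ A, ((LM_c M₀ t : ℂ) * (LM_z k u t : ℂ))‖ ≤
      ∑ A ∈ (LM_T k).powerset.erase ∅, ε * LL k X := by
    refine le_trans (norm_sum_le _ _) (Finset.sum_le_sum fun A hA => ?_)
    have h6 : ∑ u ∈ GT k X, ∏ t ∈ A, ((LM_c M₀ t : ℂ) * (LM_z k u t : ℂ)) =
        (∏ t ∈ A, (LM_c M₀ t : ℂ)) * ∑ u ∈ GT k X, ∏ t ∈ A, (LM_z k u t : ℂ) := by
      rw [Finset.mul_sum]
      exact Finset.sum_congr rfl fun u _ => Finset.prod_mul_distrib
    rw [h6, norm_mul]
    have h7 : ‖∏ t ∈ A, (LM_c M₀ t : ℂ)‖ ≤ 1 := by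
      rw [norm_prod]
      refine Finset.prod_le_one (fun _ _ => norm_nonneg _) fun t _ => ?_
      rcases LM_c_pm M₀ t with h | h <;> rw [h] <;> simp
    calc ‖∏ t ∈ A, (LM_c M₀ t : ℂ)‖ * ‖∑ u ∈ GT k X, ∏ t ∈ A, (LM_z k u t : ℂ)‖
        ≤ 1 * (ε * LL k X) := mul_le_mul h7 (h1 A hA) (norm_nonneg _) zero_le_one
      _ = ε * LL k X := one_mul _
  have h8 : ‖(1 / 2 ^ N : ℂ)‖ = 1 / 2 ^ N := by simp
  rw [h8]
  have hL : 0 ≤ ε * LL k X := mul_nonneg hε.le (LM_LL_nonneg k hX3)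
  have h9 : ((((LM_T k).powerset.erase ∅).card : ℕ) : ℝ) ≤ 2 ^ N := by
    have h10 : ((LM_T k).powerset.erase ∅).card ≤ 2 ^ N := by
      refine le_trans (Finset.card_erase_le) ?_
      rw [Finset.card_powerset, LM_card]
    exact_mod_cast h10
  calc (1 / 2 ^ N : ℝ) * ‖∑ A ∈ (LM_T k).powerset.erase ∅, ∑ u ∈ GT k X,
      ∏ t ∈ A, ((LM_c M₀ t : ℂ) * (LM_z k u t : ℂ))‖
      ≤ (1 / 2 ^ N : ℝ) * ∑ A ∈ (LM_T k).powerset.erase ∅, ε * LL k X :=
        mul_le_mul_of_nonneg_left h5 (by positivity)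
    _ = (1 / 2 ^ N : ℝ) * ((((LM_T k).powerset.erase ∅).card : ℝ) * (ε * LL k X)) := by
        rw [Finset.sum_const, nsmul_eq_mul]
    _ ≤ (1 / 2 ^ N : ℝ) * (2 ^ N * (ε * LL k X)) := by gcongr
    _ = ε * LL k X := by field_simp

end Pool.Agent.AVM
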